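import Pool.Agent.Helper54.PT.DefsF
import Pool.Agent.Helper19.TW.C5a
import Pool.Agent.Helper83.TE.B1
import Pool.Agent.Helper79.TE.B3

/-!
# Module B6 (TE): the local conditions at a place of multiplicative reduction
-/

set_option autoImplicit false

namespace Pool.Agent.Helper54.PT

open Polynomial Finset Module

namespace B6

/-- `w` is in the span of `u` and `v` -/
def ins (u v w : LS) : Prop := w = 0 ∨ w = u ∨ w = v ∨ w = u + v

instance (u v w : LS) : Decidable (ins u v w) := by unfold ins; infer_instance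

theorem z2 : ∀ a : ZMod 2, a = 0 ∨ a = 1 := by decide

theorem mem_span_iff (u v w : LS) : w ∈ Submodule.span (ZMod 2) {u, v} ↔ ins u v w := by
  rw [Submodule.mem_span_pair]
  constructor
  · rintro ⟨a, b, rfl⟩
    have ha := z2 a
    have hb := z2 b
    unfold ins
    rcases ha with rfl | rfl <;> rcases hb with rfl | rfl <;> simp
  · rintro (rfl | rfl | rfl | rfl)
    · exact ⟨0, 0, by simp⟩
    · exact ⟨1, 0, by simp⟩
    · exact ⟨0, 1, by simp⟩
    · exact ⟨1, 1, by simp⟩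

theorem finrank_two {u v : LS} (hu : u ≠ 0) (hv : v ≠ 0) (huv : u ≠ v) :
    finrank (ZMod 2) (Submodule.span (ZMod 2) {u, v} : Submodule (ZMod 2) LS) = 2 := by
  have hli : LinearIndependent (ZMod 2) ![u, v] := by
    rw [LinearIndependent.pair_iff]
    intro a b h
    have ha := z2 a
    have hb := z2 b
    rcases ha with rfl | rfl <;> rcases hb with rfl | rfl
    · exact ⟨rfl, rfl⟩
    · exact absurd (by simpa using h) hv
    · exact absurd (by simpa using h) hu
    · exfalso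
      apply huv
      have h2 : u + v = 0 := by simpa using h
      have h3 : ∀ u v : LS, u + v = 0 → u = v := by decide +kernel
      exact h3 u v h2
  have h := finrank_span_eq_card hli
  have hr : Set.range ![u, v] = {u, v} := by
    simp [Matrix.range_cons, Matrix.range_empty, Set.union_comm, Set.pair_comm]
  rw [hr] at h
  simpa using h

/-- auxiliary predicate -/
def Hb (u v w : LS) : Prop := bL u v = 0 ∧ bL w u = 0 ∧ bL w v = 0

instance (u v w : LS) : Decidable (Hb u v w) := by unfold Hb; infer_instance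

/-- auxiliary predicate -/
def Or1 (u v w : LS) : Prop := u ≠ 0 → v ≠ 0 → u ≠ v → Hb u v w → ins u v w

instance (u v w : LS) : Decidable (Or1 u v w) := by unfold Or1; infer_instance

theorem orth_aux : ∀ u v w : LS, Or1 u v w := by
  decide +kernel

/-- auxiliary predicate -/
def Sep (e₁ e₂ T T₁ T₂ w : LS) : Prop := ins T₁ T₂ w → ins e₁ e₂ w → w = 0 ∨ w = T

instance (e₁ e₂ T T₁ T₂ w : LS) : Decidable (Sep e₁ e₂ T T₁ T₂ w) := by
  unfold Sep; infer_instance

/-- auxiliary predicate -/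
def Qv (g₁ g₂ : ZMod 2 × ZMod 2) (e₁ e₂ w : LS) : Prop := ins e₁ e₂ w → qL g₁ g₂ w = 0

instance (g₁ g₂ : ZMod 2 × ZMod 2) (e₁ e₂ w : LS) : Decidable (Qv g₁ g₂ e₁ e₂ w) := by
  unfold Qv; infer_instance

theorem qL_add (g₁ g₂ : ZMod 2 × ZMod 2) (w w' : LS) :
    qL g₁ g₂ (w + w') = qL g₁ g₂ w + qL g₁ g₂ w' + bL w w' := by
  simp only [qL, bL, Prod.fst_add, Prod.snd_add, Pi.add_apply]
  ring

/-- assembly of the two local conditions -/
theorem assemble {K : Type} [Field K] {c : K → ZMod 2 × ZMod 2} {α β : K}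
    (hiso : ∀ (κ : ZMod 2 × ZMod 2) (w w' : LS), LocK c α β κ w → LocK c α β κ w' →
      qL (c (α * (β - α))) (c (α * β)) w = 0 ∧ bL w w' = 0)
    (s : ZMod 2) (e₁ e₂ T T₁ T₂ : LS) (he₁ : e₁ ≠ 0) (he₂ : e₂ ≠ 0) (he : e₁ ≠ e₂)
    (hq : ∀ w, Qv (c (α * (β - α))) (c (α * β)) e₁ e₂ w)
    (hin : ∀ w, LocK c α β (0, s) w → ins e₁ e₂ w)
    (hT₁e : T₁ = mkL (c (α * β)) ((0, s + 1) + c α))
    (hT₂e : T₂ = mkL ((0, s + 1) + c α) (c (α * (β - α))))
    (hT₁ : T₁ ≠ 0) (hT₂ : T₂ ≠ 0) (hT₁₂ : T₁ ≠ T₂) (hT : T ≠ 0) (hTe : ins e₁ e₂ T)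
    (hTn : ins T₁ T₂ T) (hsep : ∀ w, Sep e₁ e₂ T T₁ T₂ w) :
    ∃ M : ZMod 2 → Submodule (ZMod 2) LS, (∀ c, finrank (ZMod 2) (M c) = 2) ∧
      (∀ d, ∀ w ∈ M d, qL (c (α * (β - α))) (c (α * β)) w = 0) ∧
      (∀ (d : ZMod 2) (w : LS), LocK c α β (0, d) w → w ∈ M d) ∧
      finrank (ZMod 2) (M 0 ⊓ M 1 : Submodule (ZMod 2) LS) = 1 := by
  have hL₁ : LocK c α β (0, s + 1) T₁ := Or.inr (Or.inl hT₁e)
  have hL₂ : LocK c α β (0, s + 1) T₂ := Or.inr (Or.inr (Or.inl hT₂e))
  obtain ⟨hq₁, hb₁₂⟩ := hiso _ _ _ hL₁ hL₂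
  obtain ⟨hq₂, -⟩ := hiso _ _ _ hL₂ hL₂
  have hinf : (Submodule.span (ZMod 2) {e₁, e₂} ⊓ Submodule.span (ZMod 2) {T₁, T₂} :
      Submodule (ZMod 2) LS) = Submodule.span (ZMod 2) {T} := by
    apply le_antisymm
    · intro w hw
      rw [Submodule.mem_inf, mem_span_iff, mem_span_iff] at hw
      rcases hsep w hw.2 hw.1 with h | h
      · rw [h]; exact Submodule.zero_mem _
      · rw [h]; exact Submodule.mem_span_singleton_self T
    · rw [Submodule.span_singleton_le_iff_mem, Submodule.mem_inf, mem_span_iff, mem_span_iff]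
      exact ⟨hTe, hTn⟩
  have hfin : finrank (ZMod 2) (Submodule.span (ZMod 2) {e₁, e₂} ⊓
      Submodule.span (ZMod 2) {T₁, T₂} : Submodule (ZMod 2) LS) = 1 := by
    rw [hinf]
    exact finrank_span_singleton hT
  obtain ⟨M, hM1, hM2⟩ : ∃ M : ZMod 2 → Submodule (ZMod 2) LS,
      M s = Submodule.span (ZMod 2) {e₁, e₂} ∧
      ∀ d, d ≠ s → M d = Submodule.span (ZMod 2) {T₁, T₂} := by
    refine ⟨fun d => if d = s then Submodule.span (ZMod 2) {e₁, e₂}
      else Submodule.span (ZMod 2) {T₁, T₂}, ?_, ?_⟩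
    · simp
    · intro d hd
      simp [hd]
  refine ⟨M, ?_, ?_, ?_, ?_⟩
  · intro d
    by_cases h : d = s
    · rw [h, hM1]; exact finrank_two he₁ he₂ he
    · rw [hM2 d h]; exact finrank_two hT₁ hT₂ hT₁₂
  · intro d w hw
    by_cases h : d = s
    · rw [h, hM1] at hw
      exact hq w ((mem_span_iff _ _ _).1 hw)
    rw [hM2 d h] at hw
    rcases (mem_span_iff _ _ _).1 hw with h | h | h | h
    · rw [h]; simp [qL]
    · rw [h]; exact hq₁
    · rw [h]; exact hq₂
    · rw [h, qL_add, hq₁, hq₂, hb₁₂]; ring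
  · intro d w hw
    by_cases h : d = s
    · rw [h, hM1]
      rw [h] at hw
      exact (mem_span_iff _ _ _).2 (hin w hw)
    · rw [hM2 d h]
      have hds : ∀ d s : ZMod 2, d ≠ s → d = s + 1 := by decide
      have hd : d = s + 1 := hds d s h
      rw [hd] at hw
      obtain ⟨-, h1⟩ := hiso _ _ _ hw hL₁
      obtain ⟨-, h2⟩ := hiso _ _ _ hw hL₂
      exact (mem_span_iff _ _ _).2 (orth_aux _ _ _ hT₁ hT₂ hT₁₂ ⟨hb₁₂, h1, h2⟩)
  · have hs := z2 s
    rcases hs with rfl | rfl
    · rw [hM1, hM2 1 one_ne_zero]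
      exact hfin
    · rw [hM1, hM2 0 zero_ne_one, inf_comm]
      exact hfin

theorem ins1 : ∀ u : ZMod 2 × ZMod 2, ins (mkL (1, 0) (1, 0)) (mkL (0, 1) (0, 1)) (mkL u u) := by
  decide +kernel

theorem ins2 : ∀ u : ZMod 2 × ZMod 2, ins (mkL (1, 0) (0, 0)) (mkL (0, 1) (0, 0)) (mkL u 0) := by
  decide +kernel

theorem ins3 : ∀ u : ZMod 2 × ZMod 2, ins (mkL (0, 0) (1, 0)) (mkL (0, 0) (0, 1)) (mkL 0 u) := by
  decide +kernel

section core

variable {K : Type} [Field K] {c : K → ZMod 2 × ZMod 2}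

theorem core (hc : IsCls c) (ord : K → ℤ)
    (hadd : ∀ {x y : K}, x ≠ 0 → (y = 0 ∨ ord x < ord y) →
      x + y ≠ 0 ∧ ord (x + y) = ord x ∧ c (x + y) = c x)
    (hmul : ∀ {x y : K}, x ≠ 0 → y ≠ 0 → ord (x * y) = ord x + ord y)
    (hord : ∀ x, (c x).1 = ((ord x : ℤ) : ZMod 2))
    {α β : K} (hα : α ≠ 0) (hβ : β ≠ 0) (hγ : β - α ≠ 0)
    (hiso : ∀ (κ : ZMod 2 × ZMod 2) (w w' : LS), LocK c α β κ w → LocK c α β κ w' →
      qL (c (α * (β - α))) (c (α * β)) w = 0 ∧ bL w w' = 0)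
    (hcase : (0 < ord α ∧ ord β = 0 ∧ ord (β - α) = 0) ∨
      (ord α = 0 ∧ 0 < ord β ∧ ord (β - α) = 0) ∨
      (ord α = 0 ∧ ord β = 0 ∧ 0 < ord (β - α))) :
    ∃ M : ZMod 2 → Submodule (ZMod 2) LS, (∀ c, finrank (ZMod 2) (M c) = 2) ∧
      (∀ d, ∀ w ∈ M d, qL (c (α * (β - α))) (c (α * β)) w = 0) ∧
      (∀ (d : ZMod 2) (w : LS), LocK c α β (0, d) w → w ∈ M d) ∧
      finrank (ZMod 2) (M 0 ⊓ M 1 : Submodule (ZMod 2) LS) = 1 := by
  have hone : ord 1 = 0 := by
    have h := hmul (one_ne_zero (α := K)) one_ne_zero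
    rw [mul_one] at h
    linarith
  have hneg1 : ord (-1) = 0 := by
    have h0 : (-1 : K) ≠ 0 := neg_ne_zero.2 one_ne_zero
    have h := hmul h0 h0
    rw [neg_mul_neg, one_mul, hone] at h
    linarith
  have ordneg : ∀ {x : K}, x ≠ 0 → ord (-x) = ord x := by
    intro x hx
    have h0 : (-1 : K) ≠ 0 := neg_ne_zero.2 one_ne_zero
    have h := hmul h0 hx
    rw [neg_one_mul, hneg1, zero_add] at h
    exact h
  have cneg : ∀ {x : K}, x ≠ 0 → c (-x) = c x := by
    intro x hx
    have h0 : (-1 : K) ≠ 0 := neg_ne_zero.2 one_ne_zero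
    have h := hc.mul _ _ h0 hx
    rw [neg_one_mul, hc.neg, zero_add] at h
    exact h
  have hcαβ : c (α * β) = c α + c β := hc.mul _ _ hα hβ
  have hcαγ : c (α * (β - α)) = c α + c (β - α) := hc.mul _ _ hα hγ
  have hfst : ∀ {x : K}, ord x = 0 → c x = (0, (c x).2) := by
    intro x hx
    have h := hord x
    rw [hx, Int.cast_zero] at h
    exact Prod.ext h rfl
  rcases hcase with ⟨h1, h2, h3⟩ | ⟨h1, h2, h3⟩ | ⟨h1, h2, h3⟩
  · -- case 1
    have hcγ : c (β - α) = c β := by
      have := (hadd (x := β) (y := -α) hβ (Or.inr (by rw [ordneg hα, h2]; exact h1))).2.2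
      rw [← sub_eq_add_neg] at this
      exact this
    obtain ⟨s, hs⟩ : ∃ s : ZMod 2, c β = (0, s) := ⟨_, hfst h2⟩
    obtain ⟨A, hA⟩ : ∃ A, A = c α := ⟨_, rfl⟩
    refine assemble hiso s (mkL (1, 0) (1, 0)) (mkL (0, 1) (0, 1)) (mkL (0, 1) (0, 1))
      (mkL (A + (0, s)) ((0, s + 1) + A)) (mkL ((0, s + 1) + A) (A + (0, s)))
      (by decide +kernel) (by decide +kernel) (by decide +kernel) ?_ ?_
      (by rw [hcαβ, hs, hA]) (by rw [hcαγ, hcγ, hs, hA]) ?_ ?_ ?_ (by decide +kernel)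
      (by decide +kernel) ?_ ?_
    · rw [hcαβ, hcαγ, hcγ, hs, ← hA]
      clear hA hs
      revert A s
      decide +kernel
    · intro w hw
      rcases hw with hw | hw | hw | hw | ⟨δ, x, hδ, hδc, hx, hxα, hxβ, hsum, hw⟩
      · rw [hw]; exact Or.inl rfl
      · rw [hw, hcαβ, hs, add_comm (c α)]; exact ins1 _
      · rw [hw, hcαγ, hcγ, hs, add_comm (c α)]; exact ins1 _
      · rw [hw, hcγ]; exact ins1 _
      · have hordδα : ord (δ * α) = ord δ + ord α := hmul hδ hα
        have hordδβ : ord (δ * β) = ord δ + ord β := hmul hδ hβ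
        have key : c x = c (x + δ * α) := by
          rcases lt_or_ge (ord x) (ord (δ * α)) with h | h
          · exact (hadd hx (Or.inr h)).2.2.symm
          · have h4 : c (x + δ * β) = c (δ * β) := by
              have h5 : ord (δ * β) < ord x := by omega
              have h6 := (hadd (mul_ne_zero hδ hβ) (Or.inr h5)).2.2
              rwa [add_comm] at h6
            have h7 : c (δ * β) = 0 := by
              rw [hc.mul _ _ hδ hβ, hδc, hs]
              have : ∀ s : ZMod 2, ((0, s) : ZMod 2 × ZMod 2) + (0, s) = 0 := by decide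
              exact this s
            rw [h4, h7] at hsum
            have h8 : ∀ a b : ZMod 2 × ZMod 2, a + b + 0 = 0 → a = b := by decide
            exact h8 _ _ hsum
        rw [hw, ← key]
        exact ins1 _
    · clear hA hs
      revert A s
      decide +kernel
    · clear hA hs
      revert A s
      decide +kernel
    · clear hA hs
      revert A s
      decide +kernel
    · clear hA hs
      revert A s
      decide +kernel
    · clear hA hs
      revert A s
      decide +kernel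
  · -- case 2
    have hcγ : c (β - α) = c α := by
      have h4 : c (-α + β) = c (-α) :=
        (hadd (neg_ne_zero.2 hα) (Or.inr (by rw [ordneg hα, h1]; exact h2))).2.2
      have h5 : -α + β = β - α := by ring
      rw [h5, cneg hα] at h4
      exact h4
    obtain ⟨s, hs⟩ : ∃ s : ZMod 2, c α = (0, s) := ⟨_, hfst h1⟩
    obtain ⟨A, hA⟩ : ∃ A, A = c β := ⟨_, rfl⟩
    refine assemble hiso s (mkL (1, 0) (0, 0)) (mkL (0, 1) (0, 0)) (mkL (0, 1) (0, 0))
      (mkL ((0, s) + A) ((0, s + 1) + (0, s))) (mkL ((0, s + 1) + (0, s)) ((0, s) + (0, s)))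
      (by decide +kernel) (by decide +kernel) (by decide +kernel) ?_ ?_
      (by rw [hcαβ, hs, hA]) (by rw [hcαγ, hcγ, hs]) ?_ ?_ ?_ (by decide +kernel)
      (by decide +kernel) ?_ ?_
    · rw [hcαβ, hcαγ, hcγ, hs, ← hA]
      clear hA hs
      revert A s
      decide +kernel
    · have hss : ∀ s : ZMod 2, ((0, s) : ZMod 2 × ZMod 2) + (0, s) = 0 := by decide
      intro w hw
      rcases hw with hw | hw | hw | hw | ⟨δ, x, hδ, hδc, hx, hxα, hxβ, hsum, hw⟩
      · rw [hw]; exact Or.inl rfl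
      · rw [hw, hcαβ, hs, hss]; exact ins2 _
      · rw [hw, hcαγ, hcγ, hs, hss]; exact ins2 _
      · rw [hw, hcγ, hs, hss]; exact ins2 _
      · have hordδα : ord (δ * α) = ord δ + ord α := hmul hδ hα
        have hordδβ : ord (δ * β) = ord δ + ord β := hmul hδ hβ
        have key : c (x + δ * α) = 0 := by
          rcases lt_or_ge (ord x) (ord (δ * β)) with h | h
          · have h4 : c (x + δ * β) = c x := (hadd hx (Or.inr h)).2.2
            rw [h4] at hsum
            have h8 : ∀ a b : ZMod 2 × ZMod 2, a + b + a = 0 → b = 0 := by decide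
            exact h8 _ _ hsum
          · have h5 : ord (δ * α) < ord x := by omega
            have h6 := (hadd (mul_ne_zero hδ hα) (Or.inr h5)).2.2
            rw [add_comm] at h6
            rw [h6, hc.mul _ _ hδ hα, hδc, hs]
            exact hss s
        rw [hw, key]
        exact ins2 _
    · clear hA hs
      revert A s
      decide +kernel
    · clear hA hs
      revert A s
      decide +kernel
    · clear hA hs
      revert A s
      decide +kernel
    · clear hA hs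
      revert A s
      decide +kernel
    · clear hA hs
      revert A s
      decide +kernel
  · -- case 3
    have hcβ : c β = c α := by
      have h4 : c (α + (β - α)) = c α := (hadd hα (Or.inr (by rw [h1]; exact h3))).2.2
      have h5 : α + (β - α) = β := by ring
      rw [h5] at h4
      exact h4
    obtain ⟨s, hs⟩ : ∃ s : ZMod 2, c α = (0, s) := ⟨_, hfst h1⟩
    obtain ⟨A, hA⟩ : ∃ A, A = c (β - α) := ⟨_, rfl⟩
    refine assemble hiso s (mkL (0, 0) (1, 0)) (mkL (0, 0) (0, 1)) (mkL (0, 0) (0, 1))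
      (mkL ((0, s) + (0, s)) ((0, s + 1) + (0, s))) (mkL ((0, s + 1) + (0, s)) ((0, s) + A))
      (by decide +kernel) (by decide +kernel) (by decide +kernel) ?_ ?_
      (by rw [hcαβ, hcβ, hs]) (by rw [hcαγ, hs, hA]) ?_ ?_ ?_ (by decide +kernel)
      (by decide +kernel) ?_ ?_
    · rw [hcαβ, hcαγ, hcβ, hs, ← hA]
      clear hA hs
      revert A s
      decide +kernel
    · have hss : ∀ s : ZMod 2, ((0, s) : ZMod 2 × ZMod 2) + (0, s) = 0 := by decide
      intro w hw
      rcases hw with hw | hw | hw | hw | ⟨δ, x, hδ, hδc, hx, hxα, hxβ, hsum, hw⟩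
      · rw [hw]; exact Or.inl rfl
      · rw [hw, hcαβ, hcβ, hs, hss]; exact ins3 _
      · rw [hw, hcαγ, hs, hss]; exact ins3 _
      · rw [hw, hcβ, hs, hss]; exact ins3 _
      · have hordδα : ord (δ * α) = ord δ + ord α := hmul hδ hα
        have hordδγ : ord (δ * (β - α)) = ord δ + ord (β - α) := hmul hδ hγ
        have key : c x = 0 := by
          have h9 : x + δ * α + δ * (β - α) = x + δ * β := by ring
          rcases lt_or_ge (ord (x + δ * α)) (ord (δ * (β - α))) with h | h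
          · have h4 : c (x + δ * α + δ * (β - α)) = c (x + δ * α) := (hadd hxα (Or.inr h)).2.2
            rw [h9] at h4
            rw [h4] at hsum
            have h8 : ∀ a b : ZMod 2 × ZMod 2, a + b + b = 0 → a = 0 := by decide
            exact h8 _ _ hsum
          · have h0 : δ * α ≠ 0 := mul_ne_zero hδ hα
            have h5 : ord (-(δ * α)) < ord (x + δ * α) := by rw [ordneg h0]; omega
            have h6 := (hadd (neg_ne_zero.2 h0) (Or.inr h5)).2.2
            have h7 : -(δ * α) + (x + δ * α) = x := by ring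
            rw [h7, cneg h0, hc.mul _ _ hδ hα, hδc, hs] at h6
            rw [h6]
            exact hss s
        rw [hw, key]
        exact ins3 _
    · clear hA hs
      revert A s
      decide +kernel
    · clear hA hs
      revert A s
      decide +kernel
    · clear hA hs
      revert A s
      decide +kernel
    · clear hA hs
      revert A s
      decide +kernel
    · clear hA hs
      revert A s
      decide +kernel

end core

end B6

section RatFunc

variable {F : Type} [Field F] {lg : F → ZMod 2}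

/-- B6 with the statements of the modules B1b, B1, B3 (at `P`, `α`, `β`) as hypotheses -/
theorem exists_mult_aux
    (P : Prm F) {α β : F[X]} (hα : α ≠ 0)
    (hβ : β ≠ 0) (hγ : β - α ≠ 0) (hP : P.1 ∣ α * β * (β - α)) (hP' : ¬ (P.1 ∣ α ∧ P.1 ∣ β))
    (hB1b : ∀ {x y : RatFunc F}, x ≠ 0 → (y = 0 ∨ ordK P x < ordK P y) →
      x + y ≠ 0 ∧ ordK P (x + y) = ordK P x ∧ clsP lg P (x + y) = clsP lg P x)
    (hB1 : IsCls (clsP lg P))
    (hB3 : ∀ (κ : ZMod 2 × ZMod 2) (w w' : LS),
      LocK (clsP lg P) (algebraMap F[X] (RatFunc F) α) (algebraMap F[X] (RatFunc F) β) κ w →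
      LocK (clsP lg P) (algebraMap F[X] (RatFunc F) α) (algebraMap F[X] (RatFunc F) β) κ w' →
      qL (clsP lg P (algebraMap F[X] (RatFunc F) α * (algebraMap F[X] (RatFunc F) β -
        algebraMap F[X] (RatFunc F) α)))
        (clsP lg P (algebraMap F[X] (RatFunc F) α * algebraMap F[X] (RatFunc F) β)) w = 0 ∧
        bL w w' = 0) :
    ∃ M : ZMod 2 → Submodule (ZMod 2) LS, (∀ c, finrank (ZMod 2) (M c) = 2) ∧
      (∀ c, ∀ w ∈ M c, qL
        (clsP lg P (algebraMap F[X] (RatFunc F) α * (algebraMap F[X] (RatFunc F) β -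
          algebraMap F[X] (RatFunc F) α)))
        (clsP lg P (algebraMap F[X] (RatFunc F) α * algebraMap F[X] (RatFunc F) β)) w = 0) ∧
      (∀ (c : ZMod 2) (w : LS), LocK (clsP lg P) (algebraMap F[X] (RatFunc F) α)
        (algebraMap F[X] (RatFunc F) β) (0, c) w → w ∈ M c) ∧
      finrank (ZMod 2) (M 0 ⊓ M 1 : Submodule (ZMod 2) LS) = 1 := by
  have hpr : Prime P.1 := P.2.2.prime
  have h0 : ∀ {f : F[X]}, f ≠ 0 → ¬ P.1 ∣ f → ordK P (algebraMap F[X] (RatFunc F) f) = 0 := by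
    intro f hf hd
    rw [ordK_poly P hf, multiplicity_eq_zero.2 hd, Nat.cast_zero]
  have h1 : ∀ {f : F[X]}, f ≠ 0 → P.1 ∣ f → 0 < ordK P (algebraMap F[X] (RatFunc F) f) := by
    intro f hf hd
    rw [ordK_poly P hf]
    have h2 : multiplicity P.1 f ≠ 0 := fun h => multiplicity_eq_zero.1 h hd
    exact_mod_cast Nat.pos_of_ne_zero h2
  have hsub : algebraMap F[X] (RatFunc F) β - algebraMap F[X] (RatFunc F) α =
      algebraMap F[X] (RatFunc F) (β - α) := by rw [map_sub]
  have hα' : algebraMap F[X] (RatFunc F) α ≠ 0 := RatFunc.algebraMap_ne_zero hα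
  have hβ' : algebraMap F[X] (RatFunc F) β ≠ 0 := RatFunc.algebraMap_ne_zero hβ
  have hγ' : algebraMap F[X] (RatFunc F) β - algebraMap F[X] (RatFunc F) α ≠ 0 := by
    rw [hsub]; exact RatFunc.algebraMap_ne_zero hγ
  refine B6.core hB1 (ordK P) hB1b (fun hx hy => ordK_mul P hx hy) (fun x => rfl) hα' hβ' hγ'
    hB3 ?_
  rw [hsub]
  by_cases hdα : P.1 ∣ α
  · have hdβ : ¬ P.1 ∣ β := fun h => hP' ⟨hdα, h⟩
    have hdγ : ¬ P.1 ∣ β - α := fun h => hdβ (by simpa using dvd_add h hdα)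
    exact Or.inl ⟨h1 hα hdα, h0 hβ hdβ, h0 hγ hdγ⟩
  · by_cases hdβ : P.1 ∣ β
    · have hdγ : ¬ P.1 ∣ β - α := fun h => hdα (by simpa using dvd_sub hdβ h)
      exact Or.inr (Or.inl ⟨h0 hα hdα, h1 hβ hdβ, h0 hγ hdγ⟩)
    · have hdγ : P.1 ∣ β - α := by
        rcases hpr.dvd_or_dvd hP with h | h
        · rcases hpr.dvd_or_dvd h with h | h
          · exact absurd h hdα
          · exact absurd h hdβ
        · exact h
      exact Or.inr (Or.inr ⟨h0 hα hdα, h0 hβ hdβ, h1 hγ hdγ⟩)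

/-- B6: the local conditions at a place of multiplicative reduction (uses B1, B1b) -/
theorem exists_mult [Finite F] (hlg : IsLog 2 lg) (hm : lg (-1) = 0) (P : Prm F) {α β : F[X]}
    (hα : α ≠ 0)
    (hβ : β ≠ 0) (hγ : β - α ≠ 0) (hP : P.1 ∣ α * β * (β - α)) (hP' : ¬ (P.1 ∣ α ∧ P.1 ∣ β)) :
    ∃ M : ZMod 2 → Submodule (ZMod 2) LS, (∀ c, finrank (ZMod 2) (M c) = 2) ∧
      (∀ c, ∀ w ∈ M c, qL
        (clsP lg P (algebraMap F[X] (RatFunc F) α * (algebraMap F[X] (RatFunc F) β -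
          algebraMap F[X] (RatFunc F) α)))
        (clsP lg P (algebraMap F[X] (RatFunc F) α * algebraMap F[X] (RatFunc F) β)) w = 0) ∧
      (∀ (c : ZMod 2) (w : LS), LocK (clsP lg P) (algebraMap F[X] (RatFunc F) α)
        (algebraMap F[X] (RatFunc F) β) (0, c) w → w ∈ M c) ∧
      finrank (ZMod 2) (M 0 ⊓ M 1 : Submodule (ZMod 2) LS) = 1 := by
  have hc := isCls_clsP hlg hm P
  refine exists_mult_aux P hα hβ hγ hP hP' (fun hx hy => clsP_add hlg P hx hy) hc ?_
  intro κ w w' hw hw'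
  refine locK_iso hc (RatFunc.algebraMap_ne_zero hα) (RatFunc.algebraMap_ne_zero hβ) ?_ κ w w'
    hw hw'
  rw [← map_sub]
  exact RatFunc.algebraMap_ne_zero hγ

end RatFunc

end Pool.Agent.Helper54.PT
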